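import Pool.Agent.W223.RA.Stms

set_option autoImplicit false

namespace Pool.Agent.W830.RA

open Finset Pool.Agent.W223.RA

/-- the radical -/
def rad (n : ℕ) : ℕ := ∏ p ∈ n.primeFactors, p

theorem rad_pos (n : ℕ) : 0 < rad n :=
  Finset.prod_pos (fun _ hp => (Nat.prime_of_mem_primeFactors hp).pos)

theorem rad_primeFactors (n : ℕ) : (rad n).primeFactors = n.primeFactors :=
  Nat.primeFactors_prod (fun _ hp => Nat.prime_of_mem_primeFactors hp)

theorem rad_mul {a b : ℕ} (h : Nat.Coprime a b) : rad (a * b) = rad a * rad b := by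
  unfold rad
  rw [h.primeFactors_mul, Finset.prod_union h.disjoint_primeFactors]

/-- the numbers of coprime pairs with given prime factors -/
theorem fiber_card (S : Finset ℕ) (M : ℕ) (P : Finset (ℕ × ℕ))
    (hP : ∀ p ∈ P, p.1 ≠ 0 ∧ p.2 ≠ 0 ∧ Nat.Coprime p.1 p.2 ∧ (p.1 * p.2).primeFactors = S ∧
      ∀ q, (p.1 * p.2).factorization q ≤ M) :
    P.card ≤ (2 * (M + 1)) ^ S.card := by
  classical
  have h1 : (S.pi (fun _ => (Finset.range (M + 1)) ×ˢ (Finset.univ : Finset Bool))).card =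
      (2 * (M + 1)) ^ S.card := by
    rw [Finset.card_pi]
    simp [mul_comm]
  rw [← h1]
  refine Finset.card_le_card_of_injOn
    (fun p q _ => ((p.1 * p.2).factorization q, decide (q ∣ p.1))) ?_ ?_
  · intro p hp
    rw [Finset.mem_coe, Finset.mem_pi]
    intro q hq
    rw [Finset.mem_product]
    refine ⟨?_, Finset.mem_univ _⟩
    rw [Finset.mem_range]
    have := (hP p hp).2.2.2.2 q
    show (p.1 * p.2).factorization q < M + 1
    omega
  · intro p hp p' hp' heq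
    obtain ⟨h10, h20, hc, hS, hM⟩ := hP p hp
    obtain ⟨h10', h20', hc', hS', hM'⟩ := hP p' hp'
    have hcode : ∀ q ∈ S, (p.1 * p.2).factorization q = (p'.1 * p'.2).factorization q ∧
        (q ∣ p.1 ↔ q ∣ p'.1) := by
      intro q hq
      have h2 := congrFun (congrFun heq q) hq
      simp only [Prod.mk.injEq, decide_eq_decide] at h2
      exact h2
    have hu : ∀ (u v : ℕ), u ≠ 0 → v ≠ 0 → Nat.Coprime u v → ∀ q : ℕ, q.Prime →
        u.factorization q = (if q ∣ u then (u * v).factorization q else 0) ∧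
        v.factorization q = (if q ∣ u then 0 else (u * v).factorization q) := by
      intro u v hu0 hv0 huv q hq
      have hm : (u * v).factorization q = u.factorization q + v.factorization q := by
        rw [Nat.factorization_mul hu0 hv0]; rfl
      by_cases hd : q ∣ u
      · have hnd : ¬ q ∣ v := fun hv => hq.one_lt.ne' (Nat.Coprime.eq_one_of_dvd
          (Nat.Coprime.coprime_dvd_left hd huv) hv)
        have h0 := Nat.factorization_eq_zero_of_not_dvd hnd
        simp [hd, hm, h0]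
      · have h0 := Nat.factorization_eq_zero_of_not_dvd hd
        simp [hd, hm, h0]
    have hall : ∀ q : ℕ, p.1.factorization q = p'.1.factorization q ∧
        p.2.factorization q = p'.2.factorization q := by
      intro q
      by_cases hq : q.Prime
      · by_cases hqS : q ∈ S
        · obtain ⟨e1, e2⟩ := hcode q hqS
          obtain ⟨a1, a2⟩ := hu p.1 p.2 h10 h20 hc q hq
          obtain ⟨b1, b2⟩ := hu p'.1 p'.2 h10' h20' hc' q hq
          rw [a1, a2, b1, b2, e1]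
          by_cases hd : q ∣ p.1
          · have hd' := e2.1 hd
            simp [hd, hd']
          · have hd' : ¬ q ∣ p'.1 := fun h => hd (e2.2 h)
            simp [hd, hd']
        · have n1 : ¬ q ∣ p.1 * p.2 := by
            intro hd
            apply hqS
            rw [← hS]
            exact Nat.mem_primeFactors.2 ⟨hq, hd, mul_ne_zero h10 h20⟩
          have n2 : ¬ q ∣ p'.1 * p'.2 := by
            intro hd
            apply hqS
            rw [← hS']
            exact Nat.mem_primeFactors.2 ⟨hq, hd, mul_ne_zero h10' h20'⟩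
          have m1 : ¬ q ∣ p.1 := fun h => n1 (h.mul_right _)
          have m2 : ¬ q ∣ p.2 := fun h => n1 (h.mul_left _)
          have m3 : ¬ q ∣ p'.1 := fun h => n2 (h.mul_right _)
          have m4 : ¬ q ∣ p'.2 := fun h => n2 (h.mul_left _)
          rw [Nat.factorization_eq_zero_of_not_dvd m1, Nat.factorization_eq_zero_of_not_dvd m2,
            Nat.factorization_eq_zero_of_not_dvd m3, Nat.factorization_eq_zero_of_not_dvd m4]
          exact ⟨rfl, rfl⟩
      · simp [Nat.factorization_eq_zero_of_not_prime _ hq]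
    exact Prod.ext (Nat.eq_of_factorization_eq h10 h10' (fun q => (hall q).1))
      (Nat.eq_of_factorization_eq h20 h20' (fun q => (hall q).2))

/-- the finset of good pairs -/
def PP (B Y W : ℕ) : Finset (ℕ × ℕ) :=
  ((Finset.Icc 1 B) ×ˢ (Finset.Icc 1 B)).filter
    (fun p => Nat.Coprime p.1 p.2 ∧ rad (p.1 * p.2) ≤ Y ∧ (p.1 * p.2).primeFactors.card ≤ W)

theorem fact_le {u B q : ℕ} (hu : u ≠ 0) (hB : u ≤ B) : u.factorization q ≤ Nat.log 2 B := by
  by_cases hq : q.Prime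
  · refine Nat.le_log_of_pow_le one_lt_two ?_
    calc 2 ^ u.factorization q ≤ q ^ u.factorization q := Nat.pow_le_pow_left hq.two_le _
      _ ≤ u := Nat.le_of_dvd (Nat.pos_of_ne_zero hu) (Nat.ordProj_dvd u q)
      _ ≤ B := hB
  · rw [Nat.factorization_eq_zero_of_not_prime _ hq]
    exact Nat.zero_le _

theorem card_PP (B Y W : ℕ) :
    (PP B Y W).card ≤ (2 * (Nat.log 2 B + 1)) ^ W * Y := by
  classical
  have h1 := Finset.card_le_mul_card_image (f := fun p : ℕ × ℕ => rad (p.1 * p.2)) (PP B Y W)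
    ((2 * (Nat.log 2 B + 1)) ^ W) (by
      intro m hm
      obtain ⟨p0, hp0, hp0m⟩ := Finset.mem_image.1 hm
      have hcard : m.primeFactors.card ≤ W := by
        rw [← hp0m, rad_primeFactors]
        exact ((Finset.mem_filter.1 hp0).2).2.2
      refine le_trans (fiber_card m.primeFactors (Nat.log 2 B) _ ?_)
        (Nat.pow_le_pow_right (by omega) hcard)
      intro p hp
      obtain ⟨hp1, hp2⟩ := Finset.mem_filter.1 hp
      obtain ⟨hp3, hp4⟩ := Finset.mem_filter.1 hp1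
      rw [Finset.mem_product, Finset.mem_Icc, Finset.mem_Icc] at hp3
      have hu0 : p.1 ≠ 0 := by omega
      have hv0 : p.2 ≠ 0 := by omega
      refine ⟨hu0, hv0, hp4.1, ?_, ?_⟩
      · rw [← hp2, rad_primeFactors]
      · intro q
        have hm : (p.1 * p.2).factorization q = p.1.factorization q + p.2.factorization q := by
          rw [Nat.factorization_mul hu0 hv0]; rfl
        have f1 := fact_le (q := q) hu0 hp3.1.2
        have f2 := fact_le (q := q) hv0 hp3.2.2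
        by_cases hq : q.Prime
        · by_cases hd : q ∣ p.1
          · have hnd : ¬ q ∣ p.2 := fun hv => hq.one_lt.ne' (Nat.Coprime.eq_one_of_dvd
              (Nat.Coprime.coprime_dvd_left hd hp4.1) hv)
            have h0 := Nat.factorization_eq_zero_of_not_dvd hnd
            omega
          · have h0 := Nat.factorization_eq_zero_of_not_dvd hd
            omega
        · rw [Nat.factorization_eq_zero_of_not_prime _ hq]
          exact Nat.zero_le _)
  refine le_trans h1 (Nat.mul_le_mul_left _ ?_)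
  have h2 : (PP B Y W).image (fun p : ℕ × ℕ => rad (p.1 * p.2)) ⊆ Finset.Icc 1 Y := by
    intro m hm
    obtain ⟨p0, hp0, hp0m⟩ := Finset.mem_image.1 hm
    rw [Finset.mem_Icc, ← hp0m]
    exact ⟨rad_pos _, ((Finset.mem_filter.1 hp0).2).2.1⟩
  calc _ ≤ (Finset.Icc 1 Y).card := Finset.card_le_card h2
    _ = Y := by simp

/-- the two decodings -/
def D0 (p : ℕ × ℕ) : ℕ := rad (p.1 * p.2 * (p.1 + p.2))
def D1 (p : ℕ × ℕ) : ℕ := rad (p.1 * p.2 * (p.2 - p.1))

theorem cover (X : ℝ) (hX : 1 ≤ X) (N : ℝ) (w : ℝ)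
    (hw : w = Real.log X / (10 * Real.log (Real.log X))) :
    RadSet X (fun a b => Real.log ((a + b : ℕ) : ℝ) ≤ N) ⊆
      (D0 '' (PP ⌊Real.exp N⌋₊ ⌊X ^ ((2:ℝ) / 3)⌋₊ ⌊w⌋₊ : Set (ℕ × ℕ))) ∪
      (D1 '' (PP ⌊Real.exp N⌋₊ ⌊X ^ ((2:ℝ) / 3)⌋₊ ⌊w⌋₊ : Set (ℕ × ℕ))) := by
  rintro R ⟨hRX, hRw, a, b, ⟨ha, hab, hco⟩, hR, hQ⟩
  have hX0 : 0 < X := lt_of_lt_of_le one_pos hX
  have hb : 0 < b := lt_of_lt_of_le ha hab
  have hQ' : Real.log ((a + b : ℕ) : ℝ) ≤ N := hQ
  have hcoac : Nat.Coprime a (a + b) := by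
    rw [Nat.coprime_self_add_right]; exact hco
  have hcobc : Nat.Coprime b (a + b) := by
    rw [Nat.coprime_add_self_right]; exact hco.symm
  have hRr : rad (a * b * (a + b)) = R := hR
  have hcabc : Nat.Coprime (a * b) (a + b) := Nat.Coprime.mul_left hcoac hcobc
  have hprod : rad a * rad b * rad (a + b) = R := by
    rw [← rad_mul hco, ← rad_mul hcabc, hRr]
  have hpf : (a * b * (a + b)).primeFactors.card ≤ ⌊w⌋₊ := by
    rw [← rad_primeFactors, hRr]
    refine Nat.le_floor ?_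
    rw [hw]
    exact hRw
  have hne : a * b * (a + b) ≠ 0 := by positivity
  have hsub : ∀ u v : ℕ, u * v ∣ a * b * (a + b) → (u * v).primeFactors.card ≤ ⌊w⌋₊ := by
    intro u v h
    exact le_trans (Finset.card_le_card (Nat.primeFactors_mono h hne)) hpf
  have hle : ∀ u : ℕ, 0 < u → u ≤ a + b → u ≤ ⌊Real.exp N⌋₊ := by
    intro u hu huc
    refine Nat.le_floor ?_
    have h1 : (0:ℝ) < ((a + b : ℕ) : ℝ) := by exact_mod_cast (by omega : 0 < a + b)
    calc (u : ℝ) ≤ ((a + b : ℕ) : ℝ) := by exact_mod_cast huc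
      _ = Real.exp (Real.log ((a + b : ℕ) : ℝ)) := (Real.exp_log h1).symm
      _ ≤ Real.exp N := Real.exp_le_exp.2 hQ'
  have hmem : ∀ u v : ℕ, 0 < u → 0 < v → u ≤ a + b → v ≤ a + b → Nat.Coprime u v →
      u * v ∣ a * b * (a + b) → ((rad u * rad v : ℕ) : ℝ) ≤ X ^ ((2:ℝ) / 3) →
      ((u, v) : ℕ × ℕ) ∈ (PP ⌊Real.exp N⌋₊ ⌊X ^ ((2:ℝ) / 3)⌋₊ ⌊w⌋₊ : Set (ℕ × ℕ)) := by
    intro u v hu hv huc hvc huv hd hr
    rw [Finset.mem_coe, PP, Finset.mem_filter, Finset.mem_product, Finset.mem_Icc, Finset.mem_Icc]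
    refine ⟨⟨⟨hu, hle u hu huc⟩, ⟨hv, hle v hv hvc⟩⟩, huv, ?_, hsub u v hd⟩
    rw [rad_mul huv]
    exact Nat.le_floor hr
  by_cases h1 : ((rad a * rad b : ℕ) : ℝ) ≤ X ^ ((2:ℝ) / 3)
  · left
    refine ⟨(a, b), hmem a b ha hb (by omega) (by omega) hco (Dvd.intro _ rfl) h1, ?_⟩
    exact hRr
  by_cases h2 : ((rad a * rad (a + b) : ℕ) : ℝ) ≤ X ^ ((2:ℝ) / 3)
  · right
    refine ⟨(a, a + b), hmem a (a + b) ha (by omega) (by omega) le_rfl hcoac
      ⟨b, by ring⟩ h2, ?_⟩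
    show rad (a * (a + b) * (a + b - a)) = R
    rw [← hRr, Nat.add_sub_cancel_left]
    congr 1
    ring
  by_cases h3 : ((rad b * rad (a + b) : ℕ) : ℝ) ≤ X ^ ((2:ℝ) / 3)
  · right
    refine ⟨(b, a + b), hmem b (a + b) hb (by omega) (by omega) le_rfl hcobc
      ⟨a, by ring⟩ h3, ?_⟩
    show rad (b * (a + b) * (a + b - b)) = R
    rw [← hRr, Nat.add_sub_cancel]
    congr 1
    ring
  exfalso
  push Not at h1 h2 h3
  have hy : 0 < X ^ ((2:ℝ) / 3) := Real.rpow_pos_of_pos hX0 _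
  have hy3 : X ^ ((2:ℝ) / 3) * X ^ ((2:ℝ) / 3) * X ^ ((2:ℝ) / 3) = X ^ (2:ℕ) := by
    rw [← Real.rpow_add hX0, ← Real.rpow_add hX0, ← Real.rpow_natCast]
    norm_num
  have hR2 : ((rad a * rad b : ℕ) : ℝ) * ((rad a * rad (a + b) : ℕ) : ℝ) *
      ((rad b * rad (a + b) : ℕ) : ℝ) = (R : ℝ) ^ 2 := by
    rw [← hprod]
    push_cast
    ring
  have hlt : X ^ ((2:ℝ) / 3) * X ^ ((2:ℝ) / 3) * X ^ ((2:ℝ) / 3) <
      ((rad a * rad b : ℕ) : ℝ) * ((rad a * rad (a + b) : ℕ) : ℝ) *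
      ((rad b * rad (a + b) : ℕ) : ℝ) := by
    gcongr
  rw [hy3, hR2] at hlt
  have : (R:ℝ) ^ 2 ≤ X ^ 2 := by gcongr
  linarith

theorem tTR : StmtTR := by
  refine ⟨Real.exp (Real.exp 21), ?_, ?_⟩
  · have h1 : (22:ℝ) ≤ Real.exp 21 := by
      have := Real.add_one_le_exp (21:ℝ); linarith
    have h2 := Real.add_one_le_exp (Real.exp 21)
    linarith
  intro X hX
  have hX0 : 0 < X := lt_of_lt_of_le (Real.exp_pos _) hX
  set L := Real.log X with hL
  have hL1 : Real.exp 21 ≤ L := by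
    rw [hL, Real.le_log_iff_exp_le hX0]; exact hX
  have he21 : (2:ℝ) ^ 21 ≤ Real.exp 21 := by
    have h1 : Real.exp 21 = (Real.exp 1) ^ 21 := by
      rw [← Real.exp_nat_mul]; norm_num
    rw [h1]
    have h2 : (2:ℝ) ≤ Real.exp 1 := by
      have := Real.exp_one_gt_d9; linarith
    gcongr
  have hL2 : (1000:ℝ) ≤ L := by
    have : (1000:ℝ) ≤ 2 ^ 21 := by norm_num
    linarith
  have hLpos : 0 < L := by linarith
  have hX1 : 1 ≤ X := by
    have h1 : Real.exp 0 ≤ X := le_trans (Real.exp_le_exp.2 (Real.exp_pos 21).le) hX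
    rwa [Real.exp_zero] at h1
  set ℓ := Real.log L with hℓ
  have hℓ1 : 21 ≤ ℓ := by
    rw [hℓ, Real.le_log_iff_exp_le hLpos]; exact hL1
  set N := L ^ ((9:ℝ) / 4) with hN
  have hNL : L ≤ N := by
    rw [hN]
    calc L = L ^ (1:ℝ) := (Real.rpow_one L).symm
      _ ≤ L ^ ((9:ℝ) / 4) := Real.rpow_le_rpow_of_exponent_le (by linarith) (by norm_num)
  have hNpos : 0 < N := by linarith
  obtain ⟨w, hw⟩ : ∃ w, w = L / (10 * ℓ) := ⟨_, rfl⟩
  have hw0 : 0 ≤ w := by rw [hw]; positivity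
  have hwℓ : w * ℓ = L / 10 := by
    rw [hw]; field_simp
  have hwL : w ≤ L / 210 := by
    rw [hw]
    exact div_le_div_of_nonneg_left hLpos.le (by norm_num) (by linarith)
  have hc := cover X hX1 N w hw
  set P := PP ⌊Real.exp N⌋₊ ⌊X ^ ((2:ℝ) / 3)⌋₊ ⌊w⌋₊ with hP
  have hfin : (D0 '' (P : Set (ℕ × ℕ)) ∪ D1 '' (P : Set (ℕ × ℕ))).Finite :=
    (P.finite_toSet.image _).union (P.finite_toSet.image _)
  have hcard : (RadSet X (fun a b => Real.log ((a + b : ℕ) : ℝ) ≤ N)).ncard ≤ P.card + P.card := by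
    refine le_trans (Set.ncard_le_ncard hc hfin) (le_trans (Set.ncard_union_le _ _) ?_)
    have h1 : (D0 '' (P : Set (ℕ × ℕ))).ncard ≤ P.card := by
      refine le_trans (Set.ncard_image_le P.finite_toSet) ?_
      rw [Set.ncard_coe_finset]
    have h2 : (D1 '' (P : Set (ℕ × ℕ))).ncard ≤ P.card := by
      refine le_trans (Set.ncard_image_le P.finite_toSet) ?_
      rw [Set.ncard_coe_finset]
    omega
  have hPP := card_PP ⌊Real.exp N⌋₊ ⌊X ^ ((2:ℝ) / 3)⌋₊ ⌊w⌋₊
  rw [← hP] at hPP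
  set M := Nat.log 2 ⌊Real.exp N⌋₊ with hM
  have hMN : (M:ℝ) * Real.log 2 ≤ N := by
    have hB : ⌊Real.exp N⌋₊ ≠ 0 := by
      have : 1 ≤ ⌊Real.exp N⌋₊ := Nat.le_floor (by
        push_cast
        exact Real.one_le_exp hNpos.le)
      omega
    have h1 : 2 ^ M ≤ ⌊Real.exp N⌋₊ := Nat.pow_log_le_self 2 hB
    have h2 : ((2:ℝ) ^ M) ≤ Real.exp N := by
      calc ((2:ℝ) ^ M) = ((2 ^ M : ℕ) : ℝ) := by push_cast; rfl
        _ ≤ (⌊Real.exp N⌋₊ : ℝ) := by exact_mod_cast h1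
        _ ≤ Real.exp N := Nat.floor_le (Real.exp_pos _).le
    have h3 := Real.log_le_log (by positivity) h2
    rwa [Real.log_exp, Real.log_pow] at h3
  have hM2 : ((2 * (M + 1) : ℕ) : ℝ) ≤ 4 * N := by
    have h1 := Real.log_two_gt_d9
    have h2 : (0:ℝ) ≤ (M:ℝ) := Nat.cast_nonneg _
    have h3 : (M:ℝ) * (2 / 3) ≤ N := by nlinarith
    push_cast
    linarith
  have hpow : (((2 * (M + 1)) ^ ⌊w⌋₊ : ℕ) : ℝ) ≤ Real.exp (L / 150 + 9 / 40 * L) := by
    have h4N : 0 < 4 * N := by linarith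
    have h4N1 : 0 ≤ Real.log (4 * N) := Real.log_nonneg (by linarith)
    calc (((2 * (M + 1)) ^ ⌊w⌋₊ : ℕ) : ℝ) = ((2 * (M + 1) : ℕ) : ℝ) ^ ⌊w⌋₊ := by push_cast; rfl
      _ ≤ (4 * N) ^ ⌊w⌋₊ := by gcongr
      _ = Real.exp (Real.log (4 * N)) ^ ⌊w⌋₊ := by rw [Real.exp_log h4N]
      _ = Real.exp ((⌊w⌋₊ : ℝ) * Real.log (4 * N)) := by rw [← Real.exp_nat_mul]
      _ ≤ Real.exp (w * Real.log (4 * N)) := by
          refine Real.exp_le_exp.2 (mul_le_mul_of_nonneg_right (Nat.floor_le hw0) h4N1)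
      _ ≤ Real.exp (L / 150 + 9 / 40 * L) := by
          refine Real.exp_le_exp.2 ?_
          have e1 : Real.log (4 * N) = Real.log 4 + 9 / 4 * ℓ := by
            rw [Real.log_mul (by norm_num) hNpos.ne', hN, Real.log_rpow hLpos]
          have e2 : Real.log 4 ≤ 7 / 5 := by
            have h5 : Real.log 4 = 2 * Real.log 2 := by
              rw [show (4:ℝ) = 2 ^ 2 by norm_num, Real.log_pow]; norm_num
            have := Real.log_two_lt_d9
            rw [h5]; linarith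
          rw [e1, mul_add]
          have e3 : w * Real.log 4 ≤ L / 150 := by
            calc w * Real.log 4 ≤ w * (7 / 5) := mul_le_mul_of_nonneg_left e2 hw0
              _ ≤ L / 210 * (7 / 5) := by gcongr
              _ = L / 150 := by ring
          have e4 : w * (9 / 4 * ℓ) = 9 / 40 * L := by
            calc w * (9 / 4 * ℓ) = 9 / 4 * (w * ℓ) := by ring
              _ = 9 / 40 * L := by rw [hwℓ]; ring
          linarith
  have hY : ((⌊X ^ ((2:ℝ) / 3)⌋₊ : ℕ) : ℝ) ≤ Real.exp (2 / 3 * L) := by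
    refine le_trans (Nat.floor_le (Real.rpow_nonneg hX0.le _)) ?_
    rw [Real.rpow_def_of_pos hX0, ← hL, mul_comm]
  have hPr : (P.card : ℝ) ≤ Real.exp (L / 150 + 9 / 40 * L) * Real.exp (2 / 3 * L) := by
    calc (P.card : ℝ) ≤ (((2 * (M + 1)) ^ ⌊w⌋₊ * ⌊X ^ ((2:ℝ) / 3)⌋₊ : ℕ) : ℝ) := by
          exact_mod_cast hPP
      _ = (((2 * (M + 1)) ^ ⌊w⌋₊ : ℕ) : ℝ) * ((⌊X ^ ((2:ℝ) / 3)⌋₊ : ℕ) : ℝ) := by
          rw [Nat.cast_mul]
      _ ≤ _ := by gcongr
  calc ((RadSet X (fun a b => Real.log ((a + b : ℕ) : ℝ) ≤ N)).ncard : ℝ)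
      ≤ ((P.card + P.card : ℕ) : ℝ) := by exact_mod_cast hcard
    _ = 2 * (P.card : ℝ) := by push_cast; ring
    _ ≤ 2 * (Real.exp (L / 150 + 9 / 40 * L) * Real.exp (2 / 3 * L)) := by linarith
    _ = Real.exp (Real.log 2) * (Real.exp (L / 150 + 9 / 40 * L) * Real.exp (2 / 3 * L)) := by
        rw [Real.exp_log (by norm_num)]
    _ = Real.exp (Real.log 2 + (L / 150 + 9 / 40 * L + 2 / 3 * L)) := by
        rw [← Real.exp_add, ← Real.exp_add]
    _ ≤ Real.exp (181 / 200 * L) := by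
        refine Real.exp_le_exp.2 ?_
        have := Real.log_two_lt_d9
        linarith
    _ = X ^ ((181:ℝ) / 200) := by
        rw [Real.rpow_def_of_pos hX0, ← hL, mul_comm]

end Pool.Agent.W830.RA
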